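import Pool.Agent.R441.Q4.R

/-!
Lucas sequences `U_n(b,-1)`, `V_n(b,-1)` for `b ≡ 4 (mod 8)` at the index `(p-1)/4`.
-/

set_option autoImplicit false
set_option linter.unusedSimpArgs false
set_option linter.unusedVariables false

namespace Pool.Agent.Results.MP_1f3cf9_nt.LucasQuarterFour

open Pool.Agent.R441.Q4

/-- For a prime `p ≡ 1 (mod 4)`, `b ≡ 4 (mod 8)`, `p = c² + d² = x² + (1+b²/4)y²`, `p ≠ 1 + b²/4`,
`c ≡ 1 (mod 4)` and the odd parts of `d`, `x`, `y` congruent to `1` modulo `4`. -/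
theorem result (p : ℕ) [Fact p.Prime] (hp4 : p % 4 = 1) (b c d x y : ℤ) (hb : b % 8 = 4)
    (hcd : (p : ℤ) = c ^ 2 + d ^ 2) (hxy : (p : ℤ) = x ^ 2 + (1 + b ^ 2 / 4) * y ^ 2)
    (hpb : (p : ℤ) ≠ 1 + b ^ 2 / 4) (hc : c % 4 = 1) (hd : OddPart1 d) (hx : OddPart1 x)
    (hy : OddPart1 y) :
    (c : ZMod p) ≠ 0 ∧ (x : ZMod p) ≠ 0 ∧
    (x % 4 = 2 → 4 ∣ d ∧
      ((LU b ((p - 1) / 4) : ℤ) : ZMod p) = (-1) ^ ((b + 4) / 8 + d / 4) * (y / x)) ∧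
    (y % 4 = 2 → ((LU b ((p - 1) / 4) : ℤ) : ZMod p) = d * y / (c * x)) ∧
    (4 ∣ x * y → ((LU b ((p - 1) / 4) : ℤ) : ZMod p) = 0) ∧
    (4 ∣ y → 4 ∣ d ∧ ((LV b ((p - 1) / 4) : ℤ) : ZMod p) = 2 * (-1) ^ (d / 4 + y / 4)) ∧
    (4 ∣ x → ((LV b ((p - 1) / 4) : ℤ) : ZMod p) = 2 * (-1) ^ ((b - 4) / 8 + x / 4) * (d / c)) ∧
    (¬ 4 ∣ x * y → ((LV b ((p - 1) / 4) : ℤ) : ZMod p) = 0) := by
  have hpp : p.Prime := Fact.out
  have h2 : p ≠ 2 := by omega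
  obtain ⟨a1, ha1⟩ : ∃ a1, b = 4 * a1 := ⟨b / 4, by omega⟩
  have ho : a1 % 2 = 1 := by omega
  have hb4 : 1 + b ^ 2 / 4 = (2 * a1) ^ 2 + 1 ^ 2 := by
    have : b ^ 2 = 4 * (4 * a1 ^ 2) := by rw [ha1]; ring
    rw [this, Int.mul_ediv_cancel_left _ (by norm_num)]
    ring
  rw [hb4] at hxy hpb
  have hc2 : c % 2 = 1 := by omega
  have hq : (p - 1) / 4 = p / 4 := by omega
  rw [hq]
  have hcs := sq8_odd hc2
  have hd2 : d % 2 = 0 := by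
    by_contra hne
    have := sq8_odd (z := d) (by omega)
    omega
  have hDpos : 0 < (2 * a1) ^ 2 + 1 ^ 2 := by positivity
  have hx0 := x_ne_zero hxy.symm hDpos (Ne.symm hpb)
  have h20 := two_ne h2
  have hsg := quarter_sign (F := ZMod p) hcd.symm hc2 hd2
  have hrel : c ^ 2 + d ^ 2 = x ^ 2 + ((2 * a1) ^ 2 + 1 ^ 2) * y ^ 2 := by rw [← hcd, hxy]
  have hpar := ev_y2_of_odd hc2 hd2 hrel
  obtain ⟨q1, q2, q3, q4⟩ := ev_d hc2 hd2 (D_odd ho) hrel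
  have A0 : ∀ {l : ZMod 4}, _ → _ := fun {l} hl => lucas_main h2 (a := 2 * a1) (h := 1) (b := b)
    (Or.inl rfl) (by rw [ha1]; ring) hcd.symm hxy.symm hx0 (l := l) hc2 hd2 hl
  have f4 := four_zero
  -- the four cases
  have px2 : x % 4 = 2 → d % 4 = 0 ∧ y % 4 = 1 := fun h =>
    ⟨d_of_one hd2 (q1 h (by omega)), hy.odd (by omega)⟩
  have px4 : x % 4 = 0 → d % 8 = 2 ∧ y % 4 = 1 := fun h =>
    ⟨hd.two (d_of_five hd2 (q2 h (by omega))), hy.odd (by omega)⟩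
  have py2 : y % 4 = 2 → d % 8 = 2 ∧ x % 4 = 1 := fun h =>
    ⟨hd.two (d_of_five hd2 (q3 h (by omega))), hx.odd (by omega)⟩
  have py4 : y % 4 = 0 → d % 4 = 0 ∧ x % 4 = 1 := fun h =>
    ⟨d_of_one hd2 (q4 h (by omega)), hx.odd (by omega)⟩
  have A1 : x % 4 = 2 → (c : ZMod p) ≠ 0 ∧
      ((LV b (p / 4) : ℤ) : ZMod p) = 0 ∧
      ((LU b (p / 4) : ℤ) : ZMod p) = (-1) ^ ((b + 4) / 8 + d / 4) * (y / x) := by
    intro h
    obtain ⟨e1, e2⟩ := px2 h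
    have F := chi_ev_x2_odd hpp h2 (a := 2 * a1) rfl ho hc e1 (hx.two h) e2 hcd.symm hxy.symm hpb.symm
    have e3 : (a1 : ZMod 4) + 2 + 2 * ((d / 4 : ℤ) : ZMod 4) =
        1 + 2 * (((b + 4) / 8 + d / 4 : ℤ) : ZMod 4) := by
      obtain ⟨m, hm⟩ : ∃ m, a1 = 2 * m - 1 := ⟨(a1 + 1) / 2, by omega⟩
      have : (b + 4) / 8 = m := by omega
      rw [this, hm]
      push_cast
      ring
    rw [e3] at F
    obtain ⟨g1, g2, g3, g4⟩ := A0 F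
    obtain ⟨g5, g6⟩ := cd_facts hcd.symm g1
    obtain ⟨j, hj⟩ : ∃ j : ZMod p, j = (d : ZMod p) / c := ⟨_, rfl⟩
    rw [← hj] at g2 g3 g4 g6
    rw [hsg, if_pos e1, (jp_odd_mul g2 _).1, (jp_odd_mul g2 _).2] at g3 g4
    rw [g6] at g4
    refine ⟨g1, by rw [g3]; ring, ?_⟩
    rw [← mul_div_assoc, eq_div_iff hx0]
    apply mul_left_cancel₀ h20
    push_cast at g4
    linear_combination g4 - 2 * y * (-1) ^ ((b + 4) / 8 + d / 4) * g2
  have A2 : y % 4 = 2 → (c : ZMod p) ≠ 0 ∧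
      ((LV b (p / 4) : ℤ) : ZMod p) = 0 ∧
      ((LU b (p / 4) : ℤ) : ZMod p) = d * y / (c * x) := by
    intro h
    obtain ⟨e1, e2⟩ := py2 h
    have F := chi_ev_y2 hpp h2 (a := 2 * a1) rfl hc e1 e2 (hy.two h) hcd.symm hxy.symm hpb.symm
    obtain ⟨g1, g2, g3, g4⟩ := A0 F
    obtain ⟨g5, g6⟩ := cd_facts hcd.symm g1
    obtain ⟨j, hj⟩ : ∃ j : ZMod p, j = (d : ZMod p) / c := ⟨_, rfl⟩
    have e3 : (d * y / (c * x) : ZMod p) = j * y / x := by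
      rw [hj]; field_simp
    rw [e3]
    rw [← hj] at g2 g3 g4 g6
    rw [neg_two_mul, jp_two_mul g2, zsign, if_neg (by omega), hsg, if_neg (by omega)] at g3 g4
    rw [g6] at g4
    refine ⟨g1, by rw [g3]; ring, ?_⟩
    rw [eq_div_iff hx0]
    apply mul_left_cancel₀ h20
    push_cast at g4
    linear_combination g4
  have A3 : y % 4 = 0 → (c : ZMod p) ≠ 0 ∧
      ((LV b (p / 4) : ℤ) : ZMod p) = 2 * (-1) ^ (d / 4 + y / 4) ∧
      ((LU b (p / 4) : ℤ) : ZMod p) = 0 := by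
    intro h
    obtain ⟨e1, e2⟩ := py4 h
    have F := chi_ev_y4 hpp h2 (a := 2 * a1) (by omega) hc e1 e2 h hcd.symm hxy.symm hpb.symm
    have e3 : (d + y) % 8 = 0 ↔ (d / 4 + y / 4) % 2 = 0 := by omega
    rw [if_par e3] at F
    obtain ⟨g1, g2, g3, g4⟩ := A0 F
    rw [neg_two_mul, jp_two_mul g2, hsg, if_pos e1] at g3 g4
    refine ⟨g1, by rw [g3]; ring, ?_⟩
    have e5 : (2 * x : ZMod p) ≠ 0 := mul_ne_zero h20 hx0
    apply mul_left_cancel₀ e5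
    rw [g4]
    ring
  have A4 : x % 4 = 0 → (c : ZMod p) ≠ 0 ∧
      ((LV b (p / 4) : ℤ) : ZMod p) = 2 * (-1) ^ ((b - 4) / 8 + x / 4) * (d / c) ∧
      ((LU b (p / 4) : ℤ) : ZMod p) = 0 := by
    intro h
    obtain ⟨e1, e2⟩ := px4 h
    have F := chi_ev_x4_odd hpp h2 (a := 2 * a1) rfl ho hc e1 h e2 hcd.symm hxy.symm hpb.symm
    have e3 : (a1 : ZMod 4) + 2 * ((x / 4 : ℤ) : ZMod 4) =
        1 + 2 * (((b - 4) / 8 + x / 4 : ℤ) : ZMod 4) := by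
      obtain ⟨m, hm⟩ : ∃ m, a1 = 2 * m + 1 := ⟨a1 / 2, by omega⟩
      have : (b - 4) / 8 = m := by omega
      rw [this, hm]
      push_cast
      ring
    rw [e3] at F
    obtain ⟨g1, g2, g3, g4⟩ := A0 F
    rw [hsg, if_neg (by omega), (jp_odd_mul g2 _).1, (jp_odd_mul g2 _).2] at g3 g4
    refine ⟨g1, by rw [g3]; ring, ?_⟩
    have e5 : (2 * x : ZMod p) ≠ 0 := mul_ne_zero h20 hx0
    apply mul_left_cancel₀ e5
    rw [g4]
    ring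
  have hcases : x % 4 = 2 ∨ x % 4 = 0 ∨ y % 4 = 2 ∨ y % 4 = 0 := by omega
  have hc0 : (c : ZMod p) ≠ 0 := by
    rcases hcases with h | h | h | h
    · exact (A1 h).1
    · exact (A4 h).1
    · exact (A2 h).1
    · exact (A3 h).1
  have hdiv : 4 ∣ x * y ↔ (x % 4 = 0 ∨ y % 4 = 0) := by
    constructor
    · intro h
      by_contra hne
      rcases (show x % 4 = 2 ∨ y % 4 = 2 by omega) with h' | h'
      · obtain ⟨k, hk⟩ : ∃ k, x = 4 * k + 2 := ⟨x / 4, by omega⟩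
        obtain ⟨r, hr⟩ : ∃ r, y = 2 * r + 1 := ⟨y / 2, by omega⟩
        have : x * y = 4 * (2 * k * r + k + r) + 2 := by rw [hk, hr]; ring
        omega
      · obtain ⟨k, hk⟩ : ∃ k, y = 4 * k + 2 := ⟨y / 4, by omega⟩
        obtain ⟨r, hr⟩ : ∃ r, x = 2 * r + 1 := ⟨x / 2, by omega⟩
        have : x * y = 4 * (2 * k * r + k + r) + 2 := by rw [hk, hr]; ring
        omega
    · rintro (h | h)
      · exact (Int.dvd_of_emod_eq_zero h).mul_right _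
      · exact (Int.dvd_of_emod_eq_zero h).mul_left _
  refine ⟨hc0, hx0, fun h => ⟨by have := (px2 h).1; omega, (A1 h).2.2⟩, fun h => (A2 h).2.2, ?_,
    fun h => ⟨by have := (py4 (by omega)).1; omega, (A3 (by omega)).2.1⟩,
    fun h => (A4 (by omega)).2.1, ?_⟩
  · intro h
    rcases hdiv.1 h with h' | h'
    · exact (A4 h').2.2
    · exact (A3 h').2.2
  · intro h
    rw [hdiv] at h
    rcases (show x % 4 = 2 ∨ y % 4 = 2 by omega) with h' | h'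
    · exact (A1 h').2.1
    · exact (A2 h').2.1

end Pool.Agent.Results.MP_1f3cf9_nt.LucasQuarterFour
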